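import Pool.Agent.TH707.SP.Main

/-!
# How many strings of a random oracle have to be changed to get a sparse complete set for `NP`?

An adversary who knows the random oracle `O` changes, for all large `n`, at most `g n` of the
strings of length at most `n`; the result is the oracle `A` (`Close g O A`). Everything is relative
to `A`.

* If for every `ε > 0` there are infinitely many `n` with `g n ≤ 2 ^ (n ^ ε)`, then for almost every
  `O`, relative to all these `A`, no sparse set is complete for `NP` under Cook reductions (and no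
  sparse set, in `NP` or not, is hard).
* Otherwise every oracle `O` can be changed such that, although `P ≠ NP` and even `P ≠ ZPP`, some
  tally set in `ZPP` is complete for `NP` under Cook reductions, and even hard for `EXP` and for
  `PSPACE`.

For the second part `O` is changed such that `EXP` and `PSPACE` are contained in `ZPP` and
`P ≠ ZPP` (W900). The tally set contains the bits of the first good advice for the complete set
of `NP`. It is in the polynomial hierarchy, hence in `PSPACE` and in `ZPP`.
-/

set_option autoImplicit false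

namespace Pool.Agent.Results.MP_69a69c_lc.ChangedStrings

open Pool.Agent.NPC Pool.Agent.H620R2.Gauge Pool.Agent.TH707.SP
open Pool.Agent.W900.CH (Close)
open Pool.Agent.H628R3.RO (randomOracle)
open MeasureTheory Filter

/-- The disjoint union of the oracles `Q` and `A`. -/
def join (Q A : Oracle) : Oracle
  | [] => false
  | false :: z => Q z
  | true :: z => A z

/-- The set `S` is sparse: it has at most `p n` elements of length at most `n`, for a
polynomial `p`. -/
def Sparse (S : Oracle) : Prop :=
  ∃ p : Polynomial ℕ, ∀ n, {x : List Bool | S x = true ∧ x.length ≤ n}.ncard ≤ p.eval n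

/-- The elements of `S` are strings of ones. -/
def Tally (S : Oracle) : Prop := ∀ x, S x = true → x = List.replicate x.length true

/-- The set `S` is hard for `NP` under Cook reductions relative to the oracle `A`. -/
def CookHard (A S : Oracle) : Prop := ∀ L, IsNP A L → IsP (join A S) L

/-- The set `S` is complete for `NP` under Cook reductions relative to the oracle `A`. -/
def CookComplete (A S : Oracle) : Prop := IsNP A {x | S x = true} ∧ CookHard A S

theorem join_eq : TH680.OD.join = join := by
  funext Q A x
  rcases x with _ | ⟨b, z⟩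
  · rfl
  · cases b <;> rfl

theorem not_hard {A : Oracle} (h : ∃ L, IsNP A L ∧ ¬ WithAdvice (IsNP A) Lᶜ) {S : Oracle}
    (hS : Sparse S) : ¬ CookHard A S := by
  obtain ⟨p, hp⟩ := hS
  intro hcon
  refine no_sparse h hp fun L hL => ?_
  have h1 := hcon L hL
  rw [← join_eq] at h1
  exact isNP_compl_join h1

/-- **Sparse complete sets near random oracles.** -/
theorem result (g : ℕ → ℝ) :
    ((∀ ε : ℝ, 0 < ε → ∃ᶠ n : ℕ in atTop, g n ≤ 2 ^ (n : ℝ) ^ ε) →
      ∀ᵐ O ∂randomOracle, ∀ A : Oracle, Close g O A →
        ∀ S, Sparse S → ¬ CookHard A S ∧ ¬ CookComplete A S) ∧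
    ((¬ ∀ ε : ℝ, 0 < ε → ∃ᶠ n : ℕ in atTop, g n ≤ 2 ^ (n : ℝ) ^ ε) →
      ∀ O : Oracle, ∃ A : Oracle, Close g O A ∧ (∃ L, IsZPP A L ∧ ¬ IsP A L) ∧
        (∃ L, IsNP A L ∧ ¬ IsP A L) ∧
        ∃ T, Tally T ∧ CookComplete A T ∧ IsZPP A {x | T x = true} ∧
          ∀ L, IsEXP A L ∨ IsPSPACE A L → IsP (join A T) L) := by
  refine ⟨fun hg => ?_, fun hg O => ?_⟩
  · filter_upwards [W900.CH.ae_coNP hg] with O hO A hA S hS
    have h1 := not_hard (hO A hA) hS
    exact ⟨h1, fun h2 => h1 h2.2⟩
  · obtain ⟨A, h1, h2, L, h3, h4⟩ := W900.CH.exists_close_ZPP hg O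
    obtain ⟨T, h5, h6, h7⟩ := tally_zpp h2
    rw [join_eq] at h7
    exact ⟨A, h1, ⟨L, h3, h4⟩, ⟨L, h3.isNP, h4⟩, T, h5,
      ⟨h6.isNP, fun L hL => h7 L (Or.inr hL.isPSPACE)⟩, h6, h7⟩

end Pool.Agent.Results.MP_69a69c_lc.ChangedStrings
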