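import Pool.Agent.TH680.ND.Law

/-!
# Sparse sets complete for `NP` relative to random oracles: the exact density threshold

The strings `x` are put into the oracle `A` independently, with a probability `q |x|` that depends on
the length only, where `q` is an arbitrary function (`rand q` is the distribution of `A`). Let
`rare q n = 2 ^ n * min (q n) (1 - q n)`, the expected number of the strings of length `n` for which
`A` has the less probable value.

(1) If `rare q` is not bounded by a polynomial then, for every oracle `Q` and almost all `A`, no
sparse set (in `NP` or not) is hard for `NP` under Cook reductions, relative to `Q ⊕ A`.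

(2) If `rare q` is bounded by a polynomial then, for some oracle `Q` and almost all `A`, some tally
set is complete for `NP` under Cook reductions, relative to `Q ⊕ A`.

(3) If the series `∑ rare q` diverges then, for every `Q` and almost all `A`, `NP` and `coNP` are
different relative to `Q ⊕ A`. So between the two thresholds, sparse Cook-complete sets exist
although `NP ≠ coNP`, with the same `Q` as in (2).

(4) If the series converges then, for every `Q` and almost all `A`, the same sets are complete
relative to `Q ⊕ A` and to `Q ⊕ common q`, where `common q` is the set of the strings with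
`q > 1 / 2`: the random oracle does not matter.

The proof of (1): the hierarchy is infinite (the law of `TH680.OD.ae_infinite`), and a sparse hard
set would give `NP ⊆ P / poly`.

The proof of (2): there is an oracle `Q` such that `P = NP` relative to `Q ⊕ common q`. Call a
string of length `N` a needle if `A` has the less probable value. The strings of length `N` are
divided, by their prefixes of length `a N = t log N`, into polynomially many cells; almost surely,
if `t` is large, there is at most one needle in each cell, for all large `N` (second moment:
`2 ^ (2 N - a N) min (q N) (1 - q N) ^ 2 ≤ rare q N ^ 2 / N ^ t`). The tally set `S` consists of the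
(unary numbers of the) triples `(N, i, j)` such that the needle in the cell `i` of the length `N`
exists and has a one at the position `j`. It is in `NP`. Relative to `S`, all the needles can be
found: one reads the bits of the candidates, and then tests the candidates with `A`. The list of
the needles reduces questions in `NP` relative to `Q ⊕ A` to questions in `NP` relative to
`Q ⊕ common q`.
-/

set_option autoImplicit false

namespace Pool.Agent.Results.MP_69a69c_lc.DensityThreshold

open MeasureTheory Pool.Agent.NPC Pool.Agent.H620R2.Gauge
open Pool.Agent.W900.IE (indep)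

/-- The distribution of the random oracle: the strings `x` are in the oracle with probability
`q |x|`, independently. -/
noncomputable def rand (q : ℕ → unitInterval) : Measure Oracle := indep (fun x => q x.length)

/-- The expected number of the strings of length `n` for which the random oracle has the less
probable value. -/
noncomputable def rare (q : ℕ → unitInterval) (n : ℕ) : ℝ := 2 ^ n * min (q n : ℝ) (1 - q n)

/-- The function `rare q` is bounded by a polynomial. -/
def Bounded (q : ℕ → unitInterval) : Prop := ∃ c : ℕ, ∀ n : ℕ, rare q n ≤ (n : ℝ) ^ c + c

/-- The oracle of the more probable values. -/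
noncomputable def common (q : ℕ → unitInterval) : Oracle := fun x =>
  decide ((1 / 2 : ℝ) < q x.length)

/-- The disjoint union of the oracles `Q` and `A`. -/
def join (Q A : Oracle) : Oracle
  | [] => false
  | false :: z => Q z
  | true :: z => A z

/-- The set `S` is sparse: it has at most `p n` elements of length at most `n`, for a
polynomial `p`. -/
def Sparse (S : Oracle) : Prop :=
  ∃ p : Polynomial ℕ, ∀ n, {x : List Bool | S x = true ∧ x.length ≤ n}.ncard ≤ p.eval n

/-- The elements of `S` are strings of ones. -/
def Tally (S : Oracle) : Prop := ∀ x, S x = true → x = List.replicate x.length true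

/-- The set `S` is hard for `NP` under Cook reductions relative to the oracle `O`. -/
def CookHard (O S : Oracle) : Prop := ∀ L, IsNP O L → IsP (join O S) L

/-- The set `S` is complete for `NP` under Cook reductions relative to the oracle `O`. -/
def CookComplete (O S : Oracle) : Prop := IsNP O {x | S x = true} ∧ CookHard O S

theorem join_eq : TH680.OD.join = join := by
  funext Q A x
  rcases x with _ | ⟨b, z⟩
  · rfl
  · cases b <;> rfl

theorem dev_eq (q : ℕ → unitInterval) : W900.IE.dev (TH680.DT.pq q) = rare q := by
  funext n
  unfold W900.IE.dev TH680.DT.pq rare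
  have h : ∀ v : Fin n → Bool, min (q (List.ofFn v).length : ℝ) (1 - q (List.ofFn v).length) =
      min (q n : ℝ) (1 - q n) := fun v => by rw [List.length_ofFn]
  rw [Finset.sum_congr rfl fun v _ => h v, Finset.sum_const, nsmul_eq_mul, Finset.card_univ]
  simp

theorem poly_join {E : List Bool → Bool} (hE : Poly E) (b : Bool) :
    Poly (fun x : List Bool => decide (x.head? = some b) && E x.tail) :=
  Poly.and (Poly.decide_eq (Poly.head? Poly.id) (NPC.Poly.const _)) (hE.comp (Poly.tail Poly.id))

theorem join_xor (Q : Oracle) {A D : Oracle} {E : List Bool → Bool}
    (h : ∀ x, D x = (A x ^^ E x)) (x : List Bool) :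
    join Q D x = (join Q A x ^^ (decide (x.head? = some true) && E x.tail)) := by
  rcases x with _ | ⟨b, z⟩
  · rfl
  · cases b with
    | false => simp [join]
    | true =>
      show D z = _
      rw [h]
      simp [join]

theorem join_xor' (S : Oracle) {A D : Oracle} {E : List Bool → Bool}
    (h : ∀ x, D x = (A x ^^ E x)) (x : List Bool) :
    join D S x = (join A S x ^^ (decide (x.head? = some false) && E x.tail)) := by
  rcases x with _ | ⟨b, z⟩
  · rfl
  · cases b with
    | true => simp [join]
    | false =>
      show D z = _
      rw [h]
      simp [join]

theorem same_complete {O O' : Oracle} {E : List Bool → Bool} (hE : Poly E)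
    (h : ∀ x, O' x = (O x ^^ E x)) (S : Oracle) : CookComplete O S ↔ CookComplete O' S := by
  have h1 := TH680.DT.same_isFP hE h
  have h2 := TH680.DT.same_isFP (poly_join hE false) (join_xor' S h)
  have hNP : ∀ L, IsNP O L ↔ IsNP O' L := fun L => by
    unfold IsNP
    simp only [h1]
  have hP : ∀ L, IsP (join O S) L ↔ IsP (join O' S) L := fun L => by
    unfold IsP
    simp only [h2]
  unfold CookComplete CookHard
  simp only [hNP, hP]

/-- **Sparse sets complete for `NP` relative to random oracles: the exact density threshold.** -/
theorem result (q : ℕ → unitInterval) :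
    (¬ Bounded q → ∀ Q : Oracle, ∀ᵐ A ∂(rand q), ∀ S, Sparse S → ¬ CookHard (join Q A) S) ∧
    (Bounded q → ∃ Q : Oracle, ∀ᵐ A ∂(rand q), ∃ S, Tally S ∧ CookComplete (join Q A) S) ∧
    (¬ Summable (rare q) → ∀ Q : Oracle, ∀ᵐ A ∂(rand q),
      ∃ L, IsNP (join Q A) L ∧ ¬ IsNP (join Q A) Lᶜ) ∧
    (Summable (rare q) → ∀ Q : Oracle, ∀ᵐ A ∂(rand q), ∀ S,
      (CookComplete (join Q A) S ↔ CookComplete (join Q (common q)) S)) := by
  refine ⟨fun h Q => ?_, fun h => ?_, fun h Q => ?_, fun h Q => ?_⟩
  · have h0 : ¬ ∃ c : ℕ, ∀ n, W900.IE.dev (TH680.DT.pq q) n ≤ (n : ℝ) ^ c + c := by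
      rw [dev_eq]
      exact h
    have h1 := TH680.OD.ae_infinite h0 Q
    rw [join_eq] at h1
    filter_upwards [h1] with A hA
    rintro S ⟨p, hS⟩ hcon
    have h2 := TH680.ND.no_sparse hA hS
    rw [join_eq] at h2
    exact h2 hcon
  · obtain ⟨c, hc⟩ := h
    obtain ⟨Q, hQ, hNP⟩ := TH680.ND.exists_above2 (C := TH680.ND.cm q) (fun x y hxy => by
      unfold TH680.ND.cm
      rw [hxy])
    refine ⟨Q, ?_⟩
    have h1 := TH680.ND.ae_pair hc hQ
    filter_upwards [h1] with A hA
    obtain ⟨N₀, hA⟩ := hA
    classical
    refine ⟨fun x => decide (x ∈ TH680.ND.tl (2 * c + 2) N₀ true (TH680.OD.join Q A)), ?_, ?_, ?_⟩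
    · intro x hx
      rw [decide_eq_true_eq] at hx
      exact TH680.ND.tl_tally hx
    · have h2 := TH680.ND.isNP_tl (2 * c + 2) N₀ true (TH680.OD.join Q A)
      have h3 : {x : List Bool | decide (x ∈ TH680.ND.tl (2 * c + 2) N₀ true
          (TH680.OD.join Q A)) = true} = TH680.ND.tl (2 * c + 2) N₀ true (TH680.OD.join Q A) := by
        ext x
        simp
      rw [h3, ← join_eq]
      exact h2
    · intro L hL
      rw [← join_eq] at hL ⊢
      refine TH680.ND.hard_tally hQ (fun L hL => hNP L ?_) (t := 2 * c + 2) (N₀ := N₀)
        (fun x hx => decide_eq_true hx) (fun x hx => decide_eq_false fun h => hA x h hx) hL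
      have h4 : Pool.Agent.H591R3.PHG.IsSig (TH680.OD.join Q (TH680.ND.cm q)) 1 L := hL
      exact h4.isPH.isPSPACE
  · have h1 := TH680.ND.ae_conp (q := q) h Q
    rw [join_eq] at h1
    exact h1
  · rw [← dev_eq] at h
    filter_upwards [TH680.DT.ae_same h] with A hA
    have hx : ∀ x, common q x = (A x ^^ (A x ^^ common q x)) := fun x => by
      cases A x <;> cases common q x <;> rfl
    exact same_complete (poly_join hA true) (join_xor Q hx)

end Pool.Agent.Results.MP_69a69c_lc.DensityThreshold
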