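import Pool.Agent.TH743.KG.Thm

/-!
# Sparse oracles in Hilbert space: if `P ≠ NP`, no `NP`-hard set is decided by tests of membership
in subspaces of polynomial dimension, or by a threshold gate with a kernel part

Polynomial time is Mathlib's `Turing.TM2ComputableInPolyTime`, for functions on bit strings.

A question `q ∈ S` to a sparse set `S` is a very special test of membership in a subspace of
polynomial dimension: in the Hilbert space with an orthonormal basis of vectors indexed by the
strings, is the basis vector number `q` in the span of the vectors with index in `S` (of length at
most a polynomial)? Here the questions are tests of membership of arbitrary unit vectors `φ`, in real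
inner product spaces of any dimension, in an arbitrary subspace `U` of polynomial dimension; it is
only required that the inner products of the vectors `φ` are computed in polynomial time (the
vectors themselves are not computed). The tests are either soft (the vector, or most vectors of a
list, is near `U` or nearly orthogonal to `U`, with constants `1 / 3` and `2 / 3`), or exact (all
vectors of a list are in `U`, or some vector of the list has at least an inverse polynomial distance
from `U`).

Theorem. If some `NP`-hard set is decided by a Boolean function (depending on the input, computed in
polynomial time) of the answers to a bounded number of such tests then `P = NP`. The same holds, more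
generally, for sets decided with margin one by a threshold gate whose linear form is the sum of two
parts: an arbitrary linear form (with arbitrary real weights) in the coordinates of an integer vector
computed in polynomial time, and a linear form `⟨u, φ x⟩` in a Hilbert space of any dimension, with
polynomial `‖u‖ * ‖φ x‖` and inner products `⟨φ x, φ y⟩` computed in polynomial time. All objects
(space, vectors, subspace, weights) are arbitrary and may depend on the length in any way
(nonuniform), and `O (log n)` bits of advice may be used.

The case of many-one reductions to sparse sets is Mahaney's theorem, the case of bounded truth-table
reductions to sparse sets the theorem of Ogiwara and Watanabe, and the case of exact tests contains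
the bounded truth-table closure of the sets that reduce conjunctively to sparse sets (Arvind,
Koebler, Mundhenk); majority and threshold truth-table reductions to sparse sets are threshold gates
with a kernel part. `MP_8a52c3_lc.ArbitraryWeightGate` is the case `u = 0` of the threshold gates (up
to scaling).

Proof. By the exclusion theorem (`MP_8a52c3_lc.OneExcludedVector`,
`Pool.Agent.TH684.EX.p_eq_np_of_exc`) it is enough to exclude in polynomial time, for given
`m = poly (n)` strings, one row of a Hadamard matrix as the vector of the answers. Let
`f₁, …, f_m` in `ℤ ^ d` be the integer vectors and `G` the Gram matrix of the vectors `φ`. The
scales `s_t` are computed as in `MP_8a52c3_lc.ArbitraryWeightGate`, from the vectors `(1, f_t)`, such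
that all leverages are at most `4 d / m`; the constant coordinate bounds `s_t ^ 2` by
`(8 d / m) ∑ s ^ 2`. Some row `l` of the Hadamard matrix has `g_lᵀ Q⁻¹ g_l ≤ 2 d` for the signed sum
`g_l` of the scaled points and `v_lᵀ (s G s) v_l ≤ 2 (tr (s G s) + 1)` for the Gram matrix, and such
a row is not the sign vector, with margin one, of a linear form of the kind above if
`m > 128 d ^ 2 (3 + 8 p) ^ 2`, `p` the bound for `‖u‖ ^ 2 * ‖φ‖ ^ 2`: linear systems with integer
coefficients have real solutions of controlled size, so the points can be moved to general position,
and both parts of the form are bounded by the Cauchy-Schwarz inequality. For the tests: the functions
`⟨u, φ x⟩` form an algebra (tensor products); soft tests are amplified by a polynomial of bounded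
degree, and Boolean functions of exact tests are sign-represented by polynomials in which the
monomial of the tests that are really not passed dominates.
-/

set_option autoImplicit false

namespace Pool.Agent.Results.MP_69a69c_lc.KernelGate

open Pool.Agent.NPC Pool.Agent.TH743.KG

/-- **Kernel gates and subspace tests.** The following are equivalent: `P = NP`; some `NP`-hard set is
decided, with margin one, by a threshold gate with a kernel part; some `NP`-hard set is decided by a
bounded number of (soft or exact) tests of membership in a subspace of polynomial dimension; all sets
in `NP` are decided by such tests, for any numbers of tests. -/
theorem result : List.TFAE
    [∀ L : Set (List Bool), InNP L → InP L,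
      ∃ A : Set (List Bool), NPHard A ∧ KernelGate A,
      ∃ (A : Set (List Bool)) (k l : ℕ), NPHard A ∧ SubspaceTests k l A,
      ∀ A : Set (List Bool), InNP A → ∀ k l : ℕ, SubspaceTests k l A] :=
  kernel_tfae

end Pool.Agent.Results.MP_69a69c_lc.KernelGate
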