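import Pool.Agent.TH682.LP.Cnf

/-!
# Sets learnable from positive examples that are complete for `NP` under Cook reductions

Polynomial time is Mathlib's `Turing.TM2ComputableInPolyTime`, for functions on bit strings.

A set `A` is learnable from positive examples (`PosLearnable`) if for some function `c` (the learner),
computable in polynomial time, and some polynomial `p` the following holds for every `n`: a list of
strings of length `n` in `A`, each of which is not accepted by `c`, given the earlier ones, has at
most `p n` members, and `c`, given such a list, accepts no string of length `n` outside `A`.

Theorem. Let `A` in `NP` be learnable from positive examples. If `coNP ⊆ NP^A`, in particular if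
`NP ⊆ P^A`, then the polynomial hierarchy is contained in `P^NP[O(log n)]`. Without this hypothesis
still `P^A ⊆ P^NP[O(log n)]`. The class of the sets learnable from positive examples is closed
downward under polynomial time many-one reductions, and it contains

* the sparse sets (for these the collapse is Kadin's theorem),
* the group languages: sets of permutations whose members of each degree form a group,
* the sets whose members of length `n` are the solutions of a `k`-CNF, for every `n`, for a fixed `k`
  (no bound for the complexity of the `k`-CNFs is assumed).

Proof. Call a list of strings in `A`, of lengths less than `m`, valid if each of its members is a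
mistake of the learner, given the earlier ones of the same length. A valid list has at most
`m * p m` members, and a longest valid list is complete: the learner, given the members of the
length of the query, decides membership in `A` correctly. So `P^A` and `NP^A` are in `P` and `NP`,
given a complete list; by the hypothesis all quantifiers can be removed one after another, and every
language `L` in the polynomial hierarchy is in `NP`, given a complete list (for a larger `m`). The
number of entries of the complete lists is found by `O(log n)` queries to `NP` (binary search), and
the last query asks whether there are a valid list with this number of entries and a certificate for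
`x` in `L`, given this list.
-/

set_option autoImplicit false

namespace Pool.Agent.Results.MP_69a69c_lc.PositiveLearning

open Pool.Agent.NPC Pool.Agent.TH682.KD Pool.Agent.TH682.LP Pool.Agent.W903.GP

/-- **Sets learnable from positive examples and complete for `NP` under Cook reductions.** Let `A`
in `NP` be learnable from positive examples. (1) If the complements of all languages in `NP` are in
`NP^A`, then the polynomial hierarchy is contained in `P^NP[O(log n)]`. (2) In particular this is so
if all languages in `NP` are in `P^A`. (3) All languages in `P^A` are in `P^NP[O(log n)]`.
The class of the sets learnable from positive examples (4) is closed downward under polynomial time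
many-one reductions, and it contains (5) the sparse sets, (6) the group languages, (7) the sets given
by `k`-CNFs. -/
theorem result :
    (∀ A : Set (List Bool), PosLearnable A → InNP A → (∀ L, InNP L → InNPT A Lᶜ) →
      ∀ L, InPH L → InPNPLog L) ∧
    (∀ A : Set (List Bool), PosLearnable A → InNP A → (∀ L, InNP L → InPT A L) →
      ∀ L, InPH L → InPNPLog L) ∧
    (∀ A : Set (List Bool), PosLearnable A → InNP A → ∀ L, InPT A L → InPNPLog L) ∧
    (∀ (A B : Set (List Bool)) (g : List Bool → List Bool), PolyTime g →
      (∀ x, x ∈ A ↔ g x ∈ B) → PosLearnable B → PosLearnable A) ∧
    (∀ A : Set (List Bool), Sparse A → PosLearnable A) ∧
    (∀ A : Set (List Bool), GroupLang A → PosLearnable A) ∧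
    (∀ (k : ℕ) (A : Set (List Bool)), IsKCnf k A → PosLearnable A) :=
  ⟨fun _ hA hAN hco _ hL => collapse hAN hA hco hL,
    fun _ hA hAN hT _ hL => collapse hAN hA (fun L hL => inNPT_compl (hT L hL)) hL,
    fun _ hA hAN _ hL => reducible_log hAN hA hL,
    fun _ _ _ hg hAB hB => posLearnable_of_reduction hB hg hAB,
    fun _ h => posLearnable_of_sparse h,
    fun _ h => posLearnable_of_groupLang h,
    fun _ _ h => posLearnable_of_kCnf h⟩

end Pool.Agent.Results.MP_69a69c_lc.PositiveLearning
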